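import Mathlib

/-!
Linear independence of monomials over the polynomial ring generated by sparse generic
Laurent polynomials (Newton filtration, one type of facets).
-/

namespace Pool.Agent.TH385.MR

open AddMonoidAlgebra

variable {C : Type*} [Field C] {M : Type*} [AddCommGroup M]

/-- the part of level `d` of a Laurent polynomial, with respect to the weight `u` -/
noncomputable def top (u : M →+ ℝ) (d : ℝ) : C[M] →ₗ[C] C[M] where
  toFun p := ofCoeff (p.coeff.filter (fun m => u m = d))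
  map_add' p q := by
    ext m
    simp [Finsupp.filter_apply]
  map_smul' c p := by
    ext m
    simp [Finsupp.filter_apply]

theorem top_single (u : M →+ ℝ) (d : ℝ) (m : M) (c : C) :
    top u d (single m c) = if u m = d then single m c else 0 := by
  ext n
  simp only [top, LinearMap.coe_mk, AddHom.coe_mk, coeff_ofCoeff, coeff_single,
    Finsupp.filter_apply]
  by_cases h : m = n
  · subst h
    by_cases h' : u m = d <;> simp [h']
  · by_cases h' : u n = d <;> by_cases h'' : u m = d <;> simp [h', h'', Finsupp.single_apply, h]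

/-- all monomials have weight at most `d` -/
def Le (u : M →+ ℝ) (d : ℝ) (p : C[M]) : Prop := ∀ m ∈ p.coeff.support, u m ≤ d

theorem eq_sum (p : C[M]) : p = ∑ m ∈ p.coeff.support, single m (p.coeff m) := by
  conv_lhs => rw [← AddMonoidAlgebra.sum_coeff_single p]
  rfl

theorem Le.mul {u : M →+ ℝ} {d e : ℝ} {p q : C[M]} (hp : Le u d p) (hq : Le u e q) :
    Le u (d + e) (p * q) := by
  classical
  intro m hm
  have := AddMonoidAlgebra.support_coeff_mul_subset p q hm
  obtain ⟨a, ha, b, hb, rfl⟩ := Finset.mem_add.1 this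
  rw [map_add]
  exact add_le_add (hp a ha) (hq b hb)

theorem top_mul {u : M →+ ℝ} {d e : ℝ} {p q : C[M]} (hp : Le u d p) (hq : Le u e q) :
    top u (d + e) (p * q) = top u d p * top u e q := by
  conv_lhs => rw [eq_sum p, eq_sum q]
  conv_rhs => rw [eq_sum p, eq_sum q]
  rw [Finset.sum_mul_sum, map_sum, map_sum, map_sum, Finset.sum_mul_sum]
  refine Finset.sum_congr rfl fun m hm => ?_
  rw [map_sum]
  refine Finset.sum_congr rfl fun n hn => ?_
  rw [single_mul_single, top_single, top_single, top_single, map_add]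
  have h1 := hp m hm
  have h2 := hq n hn
  by_cases h : u m = d
  · by_cases h' : u n = e
    · simp [h, h', single_mul_single]
    · rw [if_neg, if_neg h', mul_zero]
      intro hh
      apply h'
      linarith
  · rw [if_neg, if_neg h, zero_mul]
    intro hh
    apply h
    linarith

theorem Le.one (u : M →+ ℝ) : Le u 0 (1 : C[M]) := by
  classical
  intro m hm
  have : m = 0 := by
    by_contra h
    apply Finsupp.mem_support_iff.1 hm
    simp [AddMonoidAlgebra.one_def, Finsupp.single_apply, Ne.symm h]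
  rw [this, map_zero]

theorem top_one (u : M →+ ℝ) : top u 0 (1 : C[M]) = 1 := by
  rw [AddMonoidAlgebra.one_def, top_single, if_pos (map_zero u)]

theorem Le.pow {u : M →+ ℝ} {p : C[M]} (hp : Le u 1 p) (n : ℕ) : Le u (n : ℝ) (p ^ n) := by
  induction n with
  | zero => simpa using Le.one u
  | succ n ih =>
    rw [pow_succ]
    push_cast
    exact ih.mul hp

theorem top_pow {u : M →+ ℝ} {p : C[M]} (hp : Le u 1 p) (n : ℕ) :
    top u (n : ℝ) (p ^ n) = (top u 1 p) ^ n := by
  induction n with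
  | zero => simpa using top_one u
  | succ n ih =>
    rw [pow_succ, pow_succ]
    push_cast
    rw [top_mul (hp.pow n) hp, ih]

theorem Le.prod {ι : Type*} {u : M →+ ℝ} (s : Finset ι) (f : ι → C[M]) (n : ι → ℕ)
    (hf : ∀ i, Le u 1 (f i)) :
    Le u (((∑ i ∈ s, n i : ℕ)) : ℝ) (∏ i ∈ s, f i ^ n i) ∧
      top u (((∑ i ∈ s, n i : ℕ)) : ℝ) (∏ i ∈ s, f i ^ n i) = ∏ i ∈ s, (top u 1 (f i)) ^ n i := by
  classical
  induction s using Finset.induction_on with
  | empty => exact ⟨by simpa using Le.one u, by simpa using top_one u⟩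
  | insert a s ha ih =>
    rw [Finset.prod_insert ha, Finset.prod_insert ha, Finset.sum_insert ha]
    push_cast
    push_cast at ih
    refine ⟨((hf a).pow _).mul ih.1, ?_⟩
    rw [top_mul ((hf a).pow _) ih.1, top_pow (hf a), ih.2]

theorem top_eq_zero {u : M →+ ℝ} {d e : ℝ} {p : C[M]} (hp : Le u d p) (h : d < e) :
    top u e p = 0 := by
  rw [eq_sum p, map_sum]
  refine Finset.sum_eq_zero fun m hm => ?_
  rw [top_single, if_neg]
  intro hh
  have := hp m hm
  linarith

/-! ### The binomial case -/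

theorem aeval_single_monomial {r : ℕ} (s : Fin r → M) (g : Fin r →₀ ℕ) (c : C) :
    MvPolynomial.aeval (fun j => (single (s j) (1 : C) : C[M])) (MvPolynomial.monomial g c)
      = single (∑ j, g j • s j) c := by
  rw [MvPolynomial.aeval_monomial]
  have : (g.prod fun i k => (single (s i) (1 : C) : C[M]) ^ k) = single (∑ j, g j • s j) 1 := by
    rw [Finsupp.prod_fintype _ _ (fun i => by simp)]
    have : ∀ t : Finset (Fin r), (∏ i ∈ t, (single (s i) (1 : C) : C[M]) ^ g i)
        = single (∑ j ∈ t, g j • s j) 1 := by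
      classical
      intro t
      induction t using Finset.induction_on with
      | empty => simp [AddMonoidAlgebra.one_def]
      | insert a t ha ih =>
        rw [Finset.prod_insert ha, Finset.sum_insert ha, ih, AddMonoidAlgebra.single_pow,
          single_mul_single, one_pow, one_mul]
    exact this _
  rw [this, Algebra.algebraMap_eq_smul_one, smul_mul_assoc, one_mul, AddMonoidAlgebra.smul_single]
  simp

theorem binom_gen {r : ℕ} (s : Fin r → M) (co : M →+ (Fin r → ℝ))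
    (hco : ∀ j, co (s j) = Pi.single j 1) (F : M →₀ MvPolynomial (Fin r) C)
    (hF : ∀ q ∈ F.support, ∀ q' ∈ F.support, ∀ j, |co q j - co q' j| < 1)
    (h0 : F.sum (fun q p =>
      MvPolynomial.aeval (fun j => (single (s j) (1 : C) : C[M])) p * single q 1) = 0) :
    F = 0 := by
  classical
  by_contra hne
  obtain ⟨q0, hq0⟩ := Finsupp.support_nonempty_iff.2 hne
  obtain ⟨g0, hg0⟩ := MvPolynomial.ne_zero_iff.1 (Finsupp.mem_support_iff.1 hq0)
  apply hg0
  have key : ∀ (q : M) (p : MvPolynomial (Fin r) C),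
      (MvPolynomial.aeval (fun j => (single (s j) (1 : C) : C[M])) p * single q 1 : C[M])
        = ∑ g ∈ p.support, single (q + ∑ j, g j • s j) (p.coeff g) := by
    intro q p
    conv_lhs => rw [MvPolynomial.as_sum p]
    rw [map_sum, Finset.sum_mul]
    refine Finset.sum_congr rfl fun g _ => ?_
    rw [aeval_single_monomial, single_mul_single, mul_one, add_comm]
  have h1 := congrArg (fun p : C[M] => p.coeff (q0 + ∑ j, g0 j • s j)) h0
  simp only [Finsupp.sum, coeff_sum, Finsupp.coe_finsetSum, Finset.sum_apply, coeff_zero,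
    Finsupp.coe_zero, Pi.zero_apply] at h1
  have uniq : ∀ q ∈ F.support, ∀ g : Fin r →₀ ℕ,
      q + ∑ j, g j • s j = q0 + ∑ j, g0 j • s j → q = q0 ∧ g = g0 := by
    intro q hq g hg
    have hg' := congrArg co hg
    rw [map_add, map_add, map_sum, map_sum] at hg'
    have hcomp : ∀ j, co q j + g j = co q0 j + g0 j := by
      intro j
      have := congrFun hg' j
      simp only [map_nsmul, hco, Pi.add_apply, Finset.sum_apply, Pi.smul_apply] at this
      simpa [Pi.single_apply] using this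
    have hgg : g = g0 := by
      ext j
      have h1 := abs_lt.1 (hF q hq q0 hq0 j)
      have h3 := hcomp j
      have : ((g j : ℤ) : ℝ) - ((g0 j : ℤ) : ℝ) = co q0 j - co q j := by
        push_cast; linarith
      have h4 : (((g j : ℤ) - (g0 j : ℤ) : ℤ) : ℝ) < 1 := by
        push_cast; push_cast at this; linarith [h1.1]
      have h5 : (-1 : ℝ) < (((g j : ℤ) - (g0 j : ℤ) : ℤ) : ℝ) := by
        push_cast; push_cast at this; linarith [h1.2]
      have h6 : (g j : ℤ) - (g0 j : ℤ) < 1 := by exact_mod_cast h4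
      have h7 : (-1 : ℤ) < (g j : ℤ) - (g0 j : ℤ) := by exact_mod_cast h5
      omega
    refine ⟨?_, hgg⟩
    rw [hgg] at hg
    exact add_right_cancel hg
  rw [Finset.sum_eq_single q0] at h1
  · rw [key, coeff_sum, Finsupp.finsetSum_apply, Finset.sum_eq_single g0] at h1
    · simpa using h1
    · intro g _ hgne
      rw [coeff_single, Finsupp.single_apply, if_neg]
      intro hh
      exact hgne (uniq q0 hq0 g hh).2
    · intro hh
      rw [MvPolynomial.notMem_support_iff.1 hh]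
      simp
  · intro q hq hqne
    rw [key, coeff_sum, Finsupp.finsetSum_apply]
    refine Finset.sum_eq_zero fun g _ => ?_
    rw [coeff_single, Finsupp.single_apply, if_neg]
    intro hh
    exact hqne (uniq q hq g hh).1
  · intro hh
    exact absurd hq0 hh

/-! ### Invertible linear change of variables -/

theorem lin_injective {r : ℕ} (A : Matrix (Fin r) (Fin r) C) (hA : A.det ≠ 0) :
    Function.Injective (MvPolynomial.aeval (R := C)
      (fun i => ∑ j, A i j • (MvPolynomial.X j : MvPolynomial (Fin r) C))) := by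
  have hinv : A * A⁻¹ = 1 := Matrix.mul_nonsing_inv A (by rwa [isUnit_iff_ne_zero])
  have : ∀ p, MvPolynomial.aeval (R := C)
      (fun i => ∑ j, A⁻¹ i j • (MvPolynomial.X j : MvPolynomial (Fin r) C))
      (MvPolynomial.aeval (R := C)
      (fun i => ∑ j, A i j • (MvPolynomial.X j : MvPolynomial (Fin r) C)) p) = p := by
    intro p
    rw [← AlgHom.comp_apply]
    conv_rhs => rw [← AlgHom.id_apply (R := C) p]
    congr 1
    apply MvPolynomial.algHom_ext
    intro i
    rw [AlgHom.comp_apply, MvPolynomial.aeval_X, map_sum, AlgHom.id_apply]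
    simp only [map_smul, MvPolynomial.aeval_X, Finset.smul_sum, smul_smul]
    rw [Finset.sum_comm]
    have : ∀ l, ∑ j, (A i j * A⁻¹ j l) • (MvPolynomial.X l : MvPolynomial (Fin r) C)
        = ((1 : Matrix (Fin r) (Fin r) C) i l) • MvPolynomial.X l := by
      intro l
      rw [← Finset.sum_smul, ← hinv, Matrix.mul_apply]
    rw [Finset.sum_congr rfl fun l _ => this l]
    simp [Matrix.one_apply]
  intro p q hpq
  rw [← this p, ← this q, hpq]

/-! ### Main statement -/

theorem indep_gen {r : ℕ} {γ : Type*} (V : Finset M) (c : Fin r → M → C)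
    (GG : Finset γ) (hGG : GG.Nonempty) (u : γ → M →+ ℝ) (sg : γ → Fin r → M)
    (co : γ → M →+ (Fin r → ℝ))
    (hV1 : ∀ G ∈ GG, ∀ a ∈ V, u G a ≤ 1)
    (hV2 : ∀ G ∈ GG, ∀ a ∈ V, u G a = 1 → a ∈ Set.range (sg G))
    (hsV : ∀ G ∈ GG, ∀ j, sg G j ∈ V)
    (hs1 : ∀ G ∈ GG, ∀ j, u G (sg G j) = 1)
    (hco : ∀ G ∈ GG, ∀ j, co G (sg G j) = Pi.single j 1)
    (hdet : ∀ G ∈ GG, (Matrix.of fun i j => c i (sg G j)).det ≠ 0)
    (Q : Set M)
    (hQ : ∀ G ∈ GG, ∀ q ∈ Q, (∀ G' ∈ GG, u G' q ≤ u G q) →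
      ∀ q' ∈ Q, (∀ G' ∈ GG, u G' q' ≤ u G q') → ∀ j, |co G q j - co G q' j| < 1)
    (F : M →₀ MvPolynomial (Fin r) C) (hFQ : ∀ q ∈ F.support, q ∈ Q)
    (h0 : F.sum (fun q p =>
      MvPolynomial.aeval (fun i => ∑ a ∈ V, (single a (c i a) : C[M])) p * single q 1) = 0) :
    F = 0 := by
  classical
  set f : Fin r → C[M] := fun i => ∑ a ∈ V, (single a (c i a) : C[M]) with hf
  by_contra hne
  -- the maximal gauge
  set N : M → ℝ := fun q => GG.sup' hGG (fun G => u G q) with hN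
  have hNle : ∀ G ∈ GG, ∀ q, u G q ≤ N q := fun G hG q => Finset.le_sup' (fun G => u G q) hG
  set I : Finset (Σ _ : M, (Fin r →₀ ℕ)) := F.support.sigma (fun q => (F q).support) with hI
  have hInon : I.Nonempty := by
    obtain ⟨q0, hq0⟩ := Finsupp.support_nonempty_iff.2 hne
    obtain ⟨g0, hg0⟩ := MvPolynomial.support_nonempty.2 (Finsupp.mem_support_iff.1 hq0)
    exact ⟨⟨q0, g0⟩, Finset.mem_sigma.2 ⟨hq0, hg0⟩⟩
  obtain ⟨z, hz, hzmax⟩ := Finset.exists_max_image I
    (fun z => (((∑ i, z.2 i : ℕ)) : ℝ) + N z.1) hInon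
  set d : ℝ := (((∑ i, z.2 i : ℕ)) : ℝ) + N z.1 with hd
  obtain ⟨G, hG, hGmax⟩ := Finset.exists_mem_eq_sup' hGG (fun G => u G z.1)
  have hNz : N z.1 = u G z.1 := hGmax
  -- bounds of f
  have hfLe : ∀ i, Le (u G) 1 (f i) := by
    intro i m hm
    have hm' : m ∈ V := by
      by_contra hmV
      apply Finsupp.mem_support_iff.1 hm
      rw [hf]
      simp only [coeff_sum, Finsupp.coe_finsetSum, Finset.sum_apply, coeff_single]
      refine Finset.sum_eq_zero fun a ha => ?_
      rw [Finsupp.single_apply, if_neg]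
      rintro rfl
      exact hmV ha
    exact hV1 G hG m hm'
  set th : Fin r → C[M] := fun i => ∑ j, (c i (sg G j)) • (single (sg G j) (1 : C) : C[M]) with hth
  have hsinj : Function.Injective (sg G) := by
    intro j j' hjj
    have h1 := hco G hG j
    have h2 := hco G hG j'
    rw [hjj, h2] at h1
    by_contra hne'
    have := congrFun h1 j'
    rw [Pi.single_eq_same, Pi.single_eq_of_ne (Ne.symm hne')] at this
    exact one_ne_zero this
  have htop1 : ∀ i, top (u G) 1 (f i) = th i := by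
    intro i
    rw [hf]
    simp only [map_sum, top_single]
    rw [← Finset.sum_filter]
    have hset : V.filter (fun a => u G a = 1) = Finset.univ.image (sg G) := by
      ext a
      rw [Finset.mem_filter, Finset.mem_image]
      constructor
      · rintro ⟨h1, h2⟩
        obtain ⟨j, hj⟩ := hV2 G hG a h1 h2
        exact ⟨j, Finset.mem_univ _, hj⟩
      · rintro ⟨j, _, rfl⟩
        exact ⟨hsV G hG j, hs1 G hG j⟩
    rw [hset, Finset.sum_image (fun a _ b _ h => hsinj h), hth]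
    refine Finset.sum_congr rfl fun j _ => ?_
    rw [AddMonoidAlgebra.smul_single, smul_eq_mul, mul_one]
  -- expand the relation
  have hexp : ∀ (t : Fin r → C[M]) (q : M) (p : MvPolynomial (Fin r) C),
      (MvPolynomial.aeval t p * single q 1 : C[M])
        = ∑ g ∈ p.support, (p.coeff g) • ((∏ i, t i ^ g i) * single q 1) := by
    intro t q p
    conv_lhs => rw [MvPolynomial.as_sum p]
    rw [map_sum, Finset.sum_mul]
    refine Finset.sum_congr rfl fun g _ => ?_
    rw [MvPolynomial.aeval_monomial, Finsupp.prod_fintype _ _ (fun i => by simp),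
      Algebra.algebraMap_eq_smul_one, smul_mul_assoc, one_mul, smul_mul_assoc]
  have h1 : ∑ q ∈ F.support, ∑ g ∈ (F q).support,
      ((F q).coeff g) • (top (u G) d ((∏ i, f i ^ g i) * single q 1)) = 0 := by
    have := congrArg (top (u G) d) h0
    rw [map_zero, Finsupp.sum, map_sum] at this
    rw [← this]
    refine Finset.sum_congr rfl fun q _ => ?_
    rw [hexp, map_sum]
    refine Finset.sum_congr rfl fun g _ => ?_
    rw [map_smul]
  have hmon : ∀ (q : M) (g : Fin r →₀ ℕ),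
      Le (u G) ((((∑ i, g i : ℕ)) : ℝ) + u G q) ((∏ i, f i ^ g i) * (single q 1 : C[M])) ∧
      top (u G) ((((∑ i, g i : ℕ)) : ℝ) + u G q) ((∏ i, f i ^ g i) * (single q 1 : C[M]))
        = (∏ i, th i ^ g i) * (single q 1 : C[M]) := by
    intro q g
    have hq : Le (u G) (u G q) (single q 1 : C[M]) := by
      intro m hm
      have : m = q := by
        by_contra h
        apply Finsupp.mem_support_iff.1 hm
        simp [Finsupp.single_apply, Ne.symm h]
      rw [this]
    have hp := Le.prod (u := u G) Finset.univ f g hfLe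
    refine ⟨hp.1.mul hq, ?_⟩
    rw [top_mul hp.1 hq, hp.2, top_single, if_pos rfl]
    congr 1
    exact Finset.prod_congr rfl fun i _ => by rw [htop1]
  -- the filtered family
  set F' : M →₀ MvPolynomial (Fin r) C := Finsupp.onFinset F.support
    (fun q => ∑ g ∈ (F q).support.filter (fun g => (((∑ i, g i : ℕ)) : ℝ) + u G q = d),
      MvPolynomial.monomial g ((F q).coeff g)) (by
      intro q hq
      by_contra hq'
      apply hq
      rw [Finsupp.notMem_support_iff.1 hq']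
      simp) with hF'
  have hF'app : ∀ q, F' q = ∑ g ∈ (F q).support.filter
      (fun g => (((∑ i, g i : ℕ)) : ℝ) + u G q = d), MvPolynomial.monomial g ((F q).coeff g) :=
    fun q => rfl
  have hF'coeff : ∀ q g, (F' q).coeff g =
      if (((∑ i, g i : ℕ)) : ℝ) + u G q = d then (F q).coeff g else 0 := by
    intro q g
    rw [hF'app, MvPolynomial.coeff_sum]
    simp only [MvPolynomial.coeff_monomial]
    rw [Finset.sum_ite_eq']
    by_cases h : (((∑ i, g i : ℕ)) : ℝ) + u G q = d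
    · by_cases h' : (F q).coeff g = 0
      · simp [h, h']
      · rw [if_pos, if_pos h]
        rw [Finset.mem_filter]
        exact ⟨MvPolynomial.mem_support_iff.2 h', h⟩
    · rw [if_neg, if_neg h]
      rw [Finset.mem_filter]
      exact fun hh => h hh.2
  have hF'supp : F'.support ⊆ F.support := Finsupp.support_onFinset_subset
  have h2 : F'.sum (fun q p => MvPolynomial.aeval th p * (single q 1 : C[M])) = 0 := by
    rw [Finsupp.sum_of_support_subset _ hF'supp _ (by intro q _; simp), ← h1]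
    refine Finset.sum_congr rfl fun q hq => ?_
    rw [hF'app, map_sum, Finset.sum_mul, Finset.sum_filter]
    refine Finset.sum_congr rfl fun g hg => ?_
    have hle : (((∑ i, g i : ℕ)) : ℝ) + u G q ≤ d := by
      have := hzmax ⟨q, g⟩ (Finset.mem_sigma.2 ⟨hq, hg⟩)
      have h3 := hNle G hG q
      simp only at this
      linarith
    by_cases h : (((∑ i, g i : ℕ)) : ℝ) + u G q = d
    · rw [if_pos h, ← h, (hmon q g).2, MvPolynomial.aeval_monomial,
        Finsupp.prod_fintype _ _ (fun i => by simp),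
        Algebra.algebraMap_eq_smul_one, smul_mul_assoc, one_mul, smul_mul_assoc]
    · rw [if_neg h, top_eq_zero (hmon q g).1 (lt_of_le_of_ne hle h), smul_zero]
  -- go to the binomial case
  set A : Matrix (Fin r) (Fin r) C := Matrix.of fun i j => c i (sg G j) with hA
  set Phi : MvPolynomial (Fin r) C →ₐ[C] MvPolynomial (Fin r) C := MvPolynomial.aeval (R := C)
      (fun i => ∑ j, A i j • (MvPolynomial.X j : MvPolynomial (Fin r) C)) with hPhi
  have hPhiinj : Function.Injective Phi := lin_injective A (hdet G hG)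
  have hcomp : ∀ p : MvPolynomial (Fin r) C, MvPolynomial.aeval th p
      = MvPolynomial.aeval (fun j => (single (sg G j) (1 : C) : C[M])) (Phi p) := by
    intro p
    rw [← AlgHom.comp_apply]
    congr 1
    apply MvPolynomial.algHom_ext
    intro i
    rw [MvPolynomial.aeval_X, AlgHom.comp_apply, hPhi, MvPolynomial.aeval_X, map_sum, hth]
    refine Finset.sum_congr rfl fun j _ => ?_
    rw [map_smul, MvPolynomial.aeval_X]
    rfl
  set H : M →₀ MvPolynomial (Fin r) C := F'.mapRange Phi (map_zero Phi) with hH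
  have hmx : ∀ q ∈ H.support, q ∈ Q ∧ ∀ G' ∈ GG, u G' q ≤ u G q := by
    intro q hq
    have hq' : q ∈ F'.support := Finsupp.support_mapRange hq
    have hqF : q ∈ F.support := hF'supp hq'
    obtain ⟨g, hg⟩ := MvPolynomial.ne_zero_iff.1 (Finsupp.mem_support_iff.1 hq')
    rw [hF'coeff] at hg
    by_cases hh : (((∑ i, g i : ℕ)) : ℝ) + u G q = d
    · rw [if_pos hh] at hg
      have h4 := hzmax ⟨q, g⟩ (Finset.mem_sigma.2 ⟨hqF, MvPolynomial.mem_support_iff.2 hg⟩)
      simp only at h4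
      have h5 : N q ≤ u G q := by linarith
      exact ⟨hFQ q hqF, fun G' hG' => (hNle G' hG' q).trans h5⟩
    · rw [if_neg hh] at hg
      exact absurd rfl hg
  have h3 : H = 0 := by
    apply binom_gen (sg G) (co G) (hco G hG) H
    · intro q hq q' hq' j
      exact hQ G hG q (hmx q hq).1 (hmx q hq).2 q' (hmx q' hq').1 (hmx q' hq').2 j
    · rw [hH, Finsupp.sum_mapRange_index (by intro q; simp), ← h2]
      refine Finset.sum_congr rfl fun q _ => ?_
      simp only
      rw [hcomp]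
  have h4 : F' z.1 = 0 := by
    have := congrArg (fun K : M →₀ MvPolynomial (Fin r) C => K z.1) h3
    simp only [hH, Finsupp.mapRange_apply, Finsupp.coe_zero, Pi.zero_apply] at this
    exact hPhiinj (by rw [this, map_zero])
  have h5 := hF'coeff z.1 z.2
  rw [h4, MvPolynomial.coeff_zero, if_pos (by rw [hd, hNz])] at h5
  exact MvPolynomial.mem_support_iff.1 (Finset.mem_sigma.1 hz).2 h5.symm

theorem indep {r : ℕ} {γ : Type*} (V : Finset M) (c : Fin r → M → C)
    (GG : Finset γ) (hGG : GG.Nonempty) (u : γ → M →+ ℝ) (sg : γ → Fin r → M)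
    (co : γ → M →+ (Fin r → ℝ))
    (hV1 : ∀ G ∈ GG, ∀ a ∈ V, u G a ≤ 1)
    (hV2 : ∀ G ∈ GG, ∀ a ∈ V, u G a = 1 → a ∈ Set.range (sg G))
    (hsV : ∀ G ∈ GG, ∀ j, sg G j ∈ V)
    (hs1 : ∀ G ∈ GG, ∀ j, u G (sg G j) = 1)
    (hco : ∀ G ∈ GG, ∀ j, co G (sg G j) = Pi.single j 1)
    (hdet : ∀ G ∈ GG, (Matrix.of fun i j => c i (sg G j)).det ≠ 0)
    (Q : Set M)
    (hQ : ∀ G ∈ GG, ∀ q ∈ Q, (∀ G' ∈ GG, u G' q ≤ u G q) → ∀ j, 0 ≤ co G q j ∧ co G q j < 1)
    (F : M →₀ MvPolynomial (Fin r) C) (hFQ : ∀ q ∈ F.support, q ∈ Q)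
    (h0 : F.sum (fun q p =>
      MvPolynomial.aeval (fun i => ∑ a ∈ V, (single a (c i a) : C[M])) p * single q 1) = 0) :
    F = 0 := by
  refine indep_gen V c GG hGG u sg co hV1 hV2 hsV hs1 hco hdet Q ?_ F hFQ h0
  intro G hG q hq h1 q' hq' h2 j
  have h3 := hQ G hG q hq h1 j
  have h4 := hQ G hG q' hq' h2 j
  rw [abs_lt]
  constructor <;> linarith [h3.1, h3.2, h4.1, h4.2]

/-- the same in the form of a linearly independent family -/
theorem indep_li_gen {r : ℕ} {γ : Type*} (V : Finset M) (c : Fin r → M → C)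
    (GG : Finset γ) (hGG : GG.Nonempty) (u : γ → M →+ ℝ) (sg : γ → Fin r → M)
    (co : γ → M →+ (Fin r → ℝ))
    (hV1 : ∀ G ∈ GG, ∀ a ∈ V, u G a ≤ 1)
    (hV2 : ∀ G ∈ GG, ∀ a ∈ V, u G a = 1 → a ∈ Set.range (sg G))
    (hsV : ∀ G ∈ GG, ∀ j, sg G j ∈ V)
    (hs1 : ∀ G ∈ GG, ∀ j, u G (sg G j) = 1)
    (hco : ∀ G ∈ GG, ∀ j, co G (sg G j) = Pi.single j 1)
    (hdet : ∀ G ∈ GG, (Matrix.of fun i j => c i (sg G j)).det ≠ 0)
    (Q : Set M)
    (hQ : ∀ G ∈ GG, ∀ q ∈ Q, (∀ G' ∈ GG, u G' q ≤ u G q) →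
      ∀ q' ∈ Q, (∀ G' ∈ GG, u G' q' ≤ u G q') → ∀ j, |co G q j - co G q' j| < 1) :
    LinearIndependent C (fun p : Q × (Fin r → ℕ) =>
      (∏ i, (∑ a ∈ V, (single a (c i a) : C[M])) ^ p.2 i) * (single (p.1 : M) 1 : C[M])) := by
  classical
  rw [linearIndependent_iff]
  intro l hl
  set F : M →₀ MvPolynomial (Fin r) C := l.sum (fun p x =>
    Finsupp.single (p.1 : M) (MvPolynomial.monomial (Finsupp.equivFunOnFinite.symm p.2) x)) with hF
  have hFapp : ∀ p : Q × (Fin r → ℕ),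
      (F p.1).coeff (Finsupp.equivFunOnFinite.symm p.2) = l p := by
    intro p
    rw [hF, Finsupp.sum_apply, Finsupp.sum, MvPolynomial.coeff_sum]
    rw [Finset.sum_eq_single p]
    · simp
    · intro b _ hb
      rw [Finsupp.single_apply]
      split_ifs with h
      · rw [MvPolynomial.coeff_monomial, if_neg]
        intro h'
        apply hb
        refine Prod.ext (Subtype.ext h) ?_
        exact Finsupp.equivFunOnFinite.symm.injective h'
      · simp
    · intro h
      rw [Finsupp.notMem_support_iff.1 h]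
      simp
  have hF0 : F = 0 := by
    apply indep_gen V c GG hGG u sg co hV1 hV2 hsV hs1 hco hdet Q hQ F
    · intro q hq
      by_contra hqQ
      apply Finsupp.mem_support_iff.1 hq
      rw [hF, Finsupp.sum_apply, Finsupp.sum]
      refine Finset.sum_eq_zero fun p _ => ?_
      rw [Finsupp.single_apply, if_neg]
      intro h
      exact hqQ (h ▸ p.1.2)
    · rw [← hl, Finsupp.linearCombination_apply, hF, Finsupp.sum_sum_index]
      · refine Finset.sum_congr rfl fun p _ => ?_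
        beta_reduce
        rw [Finsupp.sum_single_index (by simp), MvPolynomial.aeval_monomial,
          Finsupp.prod_fintype _ _ (fun i => by simp),
          Algebra.algebraMap_eq_smul_one, smul_mul_assoc, one_mul, smul_mul_assoc]
        rfl
      · intro q
        simp
      · intro q a b
        rw [map_add, add_mul]
  ext p
  rw [← hFapp p, hF0]
  simp

theorem indep_li {r : ℕ} {γ : Type*} (V : Finset M) (c : Fin r → M → C)
    (GG : Finset γ) (hGG : GG.Nonempty) (u : γ → M →+ ℝ) (sg : γ → Fin r → M)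
    (co : γ → M →+ (Fin r → ℝ))
    (hV1 : ∀ G ∈ GG, ∀ a ∈ V, u G a ≤ 1)
    (hV2 : ∀ G ∈ GG, ∀ a ∈ V, u G a = 1 → a ∈ Set.range (sg G))
    (hsV : ∀ G ∈ GG, ∀ j, sg G j ∈ V)
    (hs1 : ∀ G ∈ GG, ∀ j, u G (sg G j) = 1)
    (hco : ∀ G ∈ GG, ∀ j, co G (sg G j) = Pi.single j 1)
    (hdet : ∀ G ∈ GG, (Matrix.of fun i j => c i (sg G j)).det ≠ 0)
    (Q : Set M)
    (hQ : ∀ G ∈ GG, ∀ q ∈ Q, (∀ G' ∈ GG, u G' q ≤ u G q) → ∀ j, 0 ≤ co G q j ∧ co G q j < 1) :
    LinearIndependent C (fun p : Q × (Fin r → ℕ) =>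
      (∏ i, (∑ a ∈ V, (single a (c i a) : C[M])) ^ p.2 i) * (single (p.1 : M) 1 : C[M])) := by
  refine indep_li_gen V c GG hGG u sg co hV1 hV2 hsV hs1 hco hdet Q ?_
  intro G hG q hq h1 q' hq' h2 j
  have h3 := hQ G hG q hq h1 j
  have h4 := hQ G hG q' hq' h2 j
  rw [abs_lt]
  constructor <;> linarith [h3.1, h3.2, h4.1, h4.2]

/-- Vandermonde coefficients: `F i = ∑ a ∈ V, lam a ^ i • x ^ a`. -/
theorem indep_vander_gen {r : ℕ} {γ : Type*} (V : Finset M) (lam : M → C) (hlam : Set.InjOn lam V)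
    (GG : Finset γ) (hGG : GG.Nonempty) (u : γ → M →+ ℝ) (sg : γ → Fin r → M)
    (co : γ → M →+ (Fin r → ℝ))
    (hV1 : ∀ G ∈ GG, ∀ a ∈ V, u G a ≤ 1)
    (hV2 : ∀ G ∈ GG, ∀ a ∈ V, u G a = 1 → a ∈ Set.range (sg G))
    (hsV : ∀ G ∈ GG, ∀ j, sg G j ∈ V)
    (hs1 : ∀ G ∈ GG, ∀ j, u G (sg G j) = 1)
    (hco : ∀ G ∈ GG, ∀ j, co G (sg G j) = Pi.single j 1)
    (Q : Set M)
    (hQ : ∀ G ∈ GG, ∀ q ∈ Q, (∀ G' ∈ GG, u G' q ≤ u G q) →
      ∀ q' ∈ Q, (∀ G' ∈ GG, u G' q' ≤ u G q') → ∀ j, |co G q j - co G q' j| < 1) :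
    LinearIndependent C (fun p : Q × (Fin r → ℕ) =>
      (∏ i : Fin r, (∑ a ∈ V, (single a (lam a ^ (i : ℕ)) : C[M])) ^ p.2 i) *
        (single (p.1 : M) 1 : C[M])) := by
  apply indep_li_gen V (fun i a => lam a ^ (i : ℕ)) GG hGG u sg co hV1 hV2 hsV hs1 hco _ Q hQ
  intro G hG
  have hsinj : Function.Injective (sg G) := by
    intro j j' hjj
    have h1 := hco G hG j
    have h2 := hco G hG j'
    rw [hjj, h2] at h1
    by_contra hne'
    have := congrFun h1 j'
    rw [Pi.single_eq_same, Pi.single_eq_of_ne (Ne.symm hne')] at this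
    exact one_ne_zero this
  have hM : (Matrix.of fun (i j : Fin r) => lam (sg G j) ^ (i : ℕ))
      = (Matrix.vandermonde (fun j => lam (sg G j))).transpose := by
    ext i j
    simp [Matrix.vandermonde]
  rw [hM, Matrix.det_transpose, Matrix.det_vandermonde_ne_zero_iff]
  intro j j' h
  exact hsinj (hlam (hsV G hG j) (hsV G hG j') h)

theorem indep_vander {r : ℕ} {γ : Type*} (V : Finset M) (lam : M → C) (hlam : Set.InjOn lam V)
    (GG : Finset γ) (hGG : GG.Nonempty) (u : γ → M →+ ℝ) (sg : γ → Fin r → M)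
    (co : γ → M →+ (Fin r → ℝ))
    (hV1 : ∀ G ∈ GG, ∀ a ∈ V, u G a ≤ 1)
    (hV2 : ∀ G ∈ GG, ∀ a ∈ V, u G a = 1 → a ∈ Set.range (sg G))
    (hsV : ∀ G ∈ GG, ∀ j, sg G j ∈ V)
    (hs1 : ∀ G ∈ GG, ∀ j, u G (sg G j) = 1)
    (hco : ∀ G ∈ GG, ∀ j, co G (sg G j) = Pi.single j 1)
    (Q : Set M)
    (hQ : ∀ G ∈ GG, ∀ q ∈ Q, (∀ G' ∈ GG, u G' q ≤ u G q) → ∀ j, 0 ≤ co G q j ∧ co G q j < 1) :
    LinearIndependent C (fun p : Q × (Fin r → ℕ) =>
      (∏ i : Fin r, (∑ a ∈ V, (single a (lam a ^ (i : ℕ)) : C[M])) ^ p.2 i) *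
        (single (p.1 : M) 1 : C[M])) := by
  refine indep_vander_gen V lam hlam GG hGG u sg co hV1 hV2 hsV hs1 hco Q ?_
  intro G hG q hq h1 q' hq' h2 j
  have h3 := hQ G hG q hq h1 j
  have h4 := hQ G hG q' hq' h2 j
  rw [abs_lt]
  constructor <;> linarith [h3.1, h3.2, h4.1, h4.2]

/-- helper734's shape: the first `j` of the `k` polynomials `F i = ∑ a ∈ V, lam a ^ i • x ^ a`. -/
theorem indep_castLE_gen {k j : ℕ} (hjk : j ≤ k) {γ : Type*} (V : Finset M) (lam : M → C)
    (hlam : Set.InjOn lam V) (F : Fin k → C[M])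
    (hF : ∀ i, F i = ∑ a ∈ V, (single a (lam a ^ (i : ℕ)) : C[M]))
    (GG : Finset γ) (hGG : GG.Nonempty) (u : γ → M →+ ℝ) (sg : γ → Fin j → M)
    (co : γ → M →+ (Fin j → ℝ))
    (hV1 : ∀ G ∈ GG, ∀ a ∈ V, u G a ≤ 1)
    (hV2 : ∀ G ∈ GG, ∀ a ∈ V, u G a = 1 → a ∈ Set.range (sg G))
    (hsV : ∀ G ∈ GG, ∀ i, sg G i ∈ V)
    (hs1 : ∀ G ∈ GG, ∀ i, u G (sg G i) = 1)
    (hco : ∀ G ∈ GG, ∀ i, co G (sg G i) = Pi.single i 1)
    (Q : Finset M)
    (hQ : ∀ G ∈ GG, ∀ q ∈ Q, (∀ G' ∈ GG, u G' q ≤ u G q) →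
      ∀ q' ∈ Q, (∀ G' ∈ GG, u G' q' ≤ u G q') → ∀ i, |co G q i - co G q' i| < 1) :
    LinearIndependent C (fun p : Q × (Fin j → ℕ) =>
      (∏ i, F (Fin.castLE hjk i) ^ p.2 i) * (single (p.1 : M) 1 : C[M])) := by
  have h := indep_vander_gen V lam hlam GG hGG u sg co hV1 hV2 hsV hs1 hco (Q : Set M) hQ
  have h2 : (fun p : Q × (Fin j → ℕ) =>
      (∏ i, F (Fin.castLE hjk i) ^ p.2 i) * (single (p.1 : M) 1 : C[M]))
      = (fun p : ↥(Q : Set M) × (Fin j → ℕ) =>
      (∏ i : Fin j, (∑ a ∈ V, (single a (lam a ^ (i : ℕ)) : C[M])) ^ p.2 i) *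
        (single (p.1 : M) 1 : C[M])) := by
    funext p
    congr 1
    refine Finset.prod_congr rfl fun i _ => ?_
    rw [hF]
    rfl
  rw [h2]
  exact h

theorem indep_castLE {k j : ℕ} (hjk : j ≤ k) {γ : Type*} (V : Finset M) (lam : M → C)
    (hlam : Set.InjOn lam V) (F : Fin k → C[M])
    (hF : ∀ i, F i = ∑ a ∈ V, (single a (lam a ^ (i : ℕ)) : C[M]))
    (GG : Finset γ) (hGG : GG.Nonempty) (u : γ → M →+ ℝ) (sg : γ → Fin j → M)
    (co : γ → M →+ (Fin j → ℝ))
    (hV1 : ∀ G ∈ GG, ∀ a ∈ V, u G a ≤ 1)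
    (hV2 : ∀ G ∈ GG, ∀ a ∈ V, u G a = 1 → a ∈ Set.range (sg G))
    (hsV : ∀ G ∈ GG, ∀ i, sg G i ∈ V)
    (hs1 : ∀ G ∈ GG, ∀ i, u G (sg G i) = 1)
    (hco : ∀ G ∈ GG, ∀ i, co G (sg G i) = Pi.single i 1)
    (Q : Finset M)
    (hQ : ∀ G ∈ GG, ∀ q ∈ Q, (∀ G' ∈ GG, u G' q ≤ u G q) → ∀ i, 0 ≤ co G q i ∧ co G q i < 1) :
    LinearIndependent C (fun p : Q × (Fin j → ℕ) =>
      (∏ i, F (Fin.castLE hjk i) ^ p.2 i) * (single (p.1 : M) 1 : C[M])) := by
  refine indep_castLE_gen hjk V lam hlam F hF GG hGG u sg co hV1 hV2 hsV hs1 hco Q ?_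
  intro G hG q hq h1 q' hq' h2 j
  have h3 := hQ G hG q hq h1 j
  have h4 := hQ G hG q' hq' h2 j
  rw [abs_lt]
  constructor <;> linarith [h3.1, h3.2, h4.1, h4.2]

/-- all `k` polynomials -/
theorem indep_full {k : ℕ} {γ : Type*} (V : Finset M) (lam : M → C)
    (hlam : Set.InjOn lam V) (F : Fin k → C[M])
    (hF : ∀ i, F i = ∑ a ∈ V, (single a (lam a ^ (i : ℕ)) : C[M]))
    (GG : Finset γ) (hGG : GG.Nonempty) (u : γ → M →+ ℝ) (sg : γ → Fin k → M)
    (co : γ → M →+ (Fin k → ℝ))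
    (hV1 : ∀ G ∈ GG, ∀ a ∈ V, u G a ≤ 1)
    (hV2 : ∀ G ∈ GG, ∀ a ∈ V, u G a = 1 → a ∈ Set.range (sg G))
    (hsV : ∀ G ∈ GG, ∀ i, sg G i ∈ V)
    (hs1 : ∀ G ∈ GG, ∀ i, u G (sg G i) = 1)
    (hco : ∀ G ∈ GG, ∀ i, co G (sg G i) = Pi.single i 1)
    (Q : Finset M)
    (hQ : ∀ G ∈ GG, ∀ q ∈ Q, (∀ G' ∈ GG, u G' q ≤ u G q) → ∀ i, 0 ≤ co G q i ∧ co G q i < 1) :
    LinearIndependent C (fun p : Q × (Fin k → ℕ) =>
      (∏ i, F i ^ p.2 i) * (single (p.1 : M) 1 : C[M])) :=
  indep_castLE le_rfl V lam hlam F hF GG hGG u sg co hV1 hV2 hsV hs1 hco Q hQ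

end Pool.Agent.TH385.MR
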