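import Mathlib
import Pool.Agent.TH321.MH.Star
import Pool.Agent.TH385.MR.Indep

/-!
# QSET: independent monomials from the facets of one type
-/

set_option autoImplicit false

open MeasureTheory Filter Topology
open scoped ENNReal Pointwise Matrix

namespace Pool.Agent.TH385.MR

open TH321.MH

/-- exponents with sum at most `n` -/
def simp (m n : ℕ) : Finset (Fin m → ℕ) :=
  (Fintype.piFinset fun _ => Finset.range (n + 1)).filter fun b => ∑ i, b i ≤ n

theorem mem_simp {m n : ℕ} {b : Fin m → ℕ} : b ∈ simp m n ↔ ∑ i, b i ≤ n := by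
  unfold simp
  rw [Finset.mem_filter, Fintype.mem_piFinset]
  refine ⟨fun h => h.2, fun h => ⟨fun i => ?_, h⟩⟩
  rw [Finset.mem_range]
  have := Finset.single_le_sum (f := b) (fun j _ => Nat.zero_le _) (Finset.mem_univ i)
  omega

variable {k : ℕ} {α β : Type}

/-- the integer vectors -/
def w0 (a : α → Fin k → ℤ) (b : β → Fin k → ℤ) : α ⊕ β → Fin k → ℤ := Sum.elim a b

/-- the real family `V ∪ r • W` -/
def W (a : α → Fin k → ℤ) (b : β → Fin k → ℤ) (r : ℝ) : α ⊕ β → Fin k → ℝ :=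
  Sum.elim (fun i l => (a i l : ℝ)) (fun i l => r * (b i l : ℝ))

/-- scaling factor -/
def sc (r : ℝ) : α ⊕ β → ℝ := Sum.elim (fun _ => 1) (fun _ => r)

theorem W_eq (a : α → Fin k → ℤ) (b : β → Fin k → ℤ) (r : ℝ) (x : α ⊕ β) :
    W a b r x = sc r x • (fun l => (w0 a b x l : ℝ)) := by
  cases x <;> funext l <;> simp [W, w0, sc]

theorem sc_pos {r : ℝ} (hr : 0 < r) (x : α ⊕ β) : 0 < sc r x := by
  cases x <;> simp [sc, hr]

/-- left positions of a cell -/
def left (J : Fin k → α ⊕ β) : Finset (Fin k) := Finset.univ.filter fun i => (J i).isLeft = true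

section cell

variable {a : α → Fin k → ℤ} {b : β → Fin k → ℤ} {r : ℝ}
variable {κ : Type} {J : κ → Fin k → α ⊕ β} {η : κ → Fin k → ℝ}

/-- real matrix of the integer vectors of a cell -/
def cm (a : α → Fin k → ℤ) (b : β → Fin k → ℤ) (I : Fin k → α ⊕ β) :
    Matrix (Fin k) (Fin k) ℝ := Matrix.of fun i l => (w0 a b (I i) l : ℝ)

theorem det_W (a : α → Fin k → ℤ) (b : β → Fin k → ℤ) (r : ℝ) (I : Fin k → α ⊕ β) :
    (Matrix.of fun i l => W a b r (I i) l).det = (∏ i, sc r (I i)) * (cm a b I).det := by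
  rw [← Matrix.det_mul_column]
  congr 1
  ext i l
  simp [W_eq, cm]

theorem det_cm_ne (hS : Star (W a b r) κ J η) (Φ : κ) : (cm a b (J Φ)).det ≠ 0 := by
  have := hS.det Φ
  rw [det_W] at this
  exact right_ne_zero_of_mul this

theorem det_cm (a : α → Fin k → ℤ) (b : β → Fin k → ℤ) (I : Fin k → α ⊕ β) :
    (cm a b I).det = ((Matrix.of fun i l => w0 a b (I i) l).det : ℤ) := by
  have : cm a b I = (Matrix.of fun i l => w0 a b (I i) l).map (Int.castRingHom ℝ) := by
    ext i l
    simp [cm]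
  rw [this, ← RingHom.mapMatrix_apply, ← RingHom.map_det]
  rfl

/-- coordinates in the basis of a cell -/
theorem coord {I : Fin k → α ⊕ β} (hd : (cm a b I).det ≠ 0) {q : Fin k → ℝ} {θ : Fin k → ℝ}
    (h : q = ∑ i, θ i • (fun l => (w0 a b (I i) l : ℝ))) : q ᵥ* (cm a b I)⁻¹ = θ := by
  have h1 : q = θ ᵥ* cm a b I := by
    rw [h]
    funext l
    simp [Matrix.vecMul, dotProduct, cm]
  rw [h1, Matrix.vecMul_vecMul, Matrix.mul_nonsing_inv _ (isUnit_iff_ne_zero.2 hd),
    Matrix.vecMul_one]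

theorem eta_q (hS : Star (W a b r) κ J η) (hr : 0 < r) (Φ Ψ : κ) {q : Fin k → ℝ}
    {θ : Fin k → ℝ} (h : q = ∑ i, θ i • (fun l => (w0 a b (J Φ i) l : ℝ))) :
    η Ψ ⬝ᵥ q = ∑ i, (θ i / sc r (J Φ i)) * (η Ψ ⬝ᵥ W a b r (J Φ i)) := by
  rw [h, dotProduct_sum]
  refine Finset.sum_congr rfl fun i _ => ?_
  have hne := (sc_pos hr (J Φ i)).ne'
  rw [W_eq, dotProduct_smul, dotProduct_smul, smul_eq_mul, smul_eq_mul]
  field_simp

theorem eta_le (hS : Star (W a b r) κ J η) (hr : 0 < r) (Φ Ψ : κ) {q : Fin k → ℝ}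
    {θ : Fin k → ℝ} (h : q = ∑ i, θ i • (fun l => (w0 a b (J Φ i) l : ℝ)))
    (hθ : ∀ i, 0 < θ i) : η Ψ ⬝ᵥ q ≤ η Φ ⬝ᵥ q ∧ (η Ψ ⬝ᵥ q = η Φ ⬝ᵥ q → Ψ = Φ) := by
  have e1 := eta_q hS hr Φ Ψ h
  have e2 := eta_q hS hr Φ Φ h
  have hc : ∀ i, 0 < θ i / sc r (J Φ i) := fun i => div_pos (hθ i) (sc_pos hr _)
  have h1 : ∀ i, η Φ ⬝ᵥ W a b r (J Φ i) = 1 := fun i => (hS.tight Φ _).2 ⟨i, rfl⟩
  have hle : ∀ i ∈ Finset.univ, (θ i / sc r (J Φ i)) * (η Ψ ⬝ᵥ W a b r (J Φ i)) ≤
      (θ i / sc r (J Φ i)) * (η Φ ⬝ᵥ W a b r (J Φ i)) := by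
    intro i _
    rw [h1 i]
    exact mul_le_mul_of_nonneg_left (hS.feas Ψ _) (hc i).le
  refine ⟨by rw [e1, e2]; exact Finset.sum_le_sum hle, fun heq => ?_⟩
  rw [e1, e2] at heq
  have h2 := (Finset.sum_eq_sum_iff_of_le hle).1 heq
  have h3 : ∀ i, η Ψ ⬝ᵥ W a b r (J Φ i) = 1 := by
    intro i
    have := h2 i (Finset.mem_univ i)
    rw [h1 i] at this
    exact mul_left_cancel₀ (hc i).ne' this
  have h4 : (Matrix.of fun i l => W a b r (J Φ i) l) *ᵥ (η Ψ - η Φ) = 0 := by
    funext i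
    have : ((Matrix.of fun i l => W a b r (J Φ i) l) *ᵥ (η Ψ - η Φ)) i
        = (η Ψ - η Φ) ⬝ᵥ W a b r (J Φ i) := by
      rw [dotProduct_comm]
      rfl
    rw [this, sub_dotProduct, h3, h1, sub_self]
    rfl
  have h5 : η Ψ - η Φ = 0 := by
    by_contra hne
    exact hS.det Φ (Matrix.exists_mulVec_eq_zero_iff.1 ⟨_, hne, h4⟩)
  exact hS.inj (sub_eq_zero.1 h5)

end cell

/-- [X1] representatives in the half open parallelepiped `(0,1]^k` -/
def X1 : Prop := ∀ (k : ℕ) (w : Fin k → Fin k → ℤ), (Matrix.of w).det ≠ 0 →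
  ∃ S : Finset (Fin k → ℤ), S.card = (Matrix.of w).det.natAbs ∧
    ∀ u ∈ S, ∃ θ : Fin k → ℝ, (∀ i, 0 < θ i ∧ θ i ≤ 1) ∧
      (fun l => (u l : ℝ)) = ∑ i, θ i • (fun l => (w i l : ℝ))

/-- number of independent monomials contributed by the facets of type `j` -/
noncomputable def Nn {κ : Type} [Fintype κ] (a : α → Fin k → ℤ) (b : β → Fin k → ℤ)
    (J : κ → Fin k → α ⊕ β) (j : ℕ) : ℕ :=
  ∑ Φ ∈ Finset.univ.filter (fun Φ : κ => (left (J Φ)).card = j),
    (Matrix.of fun i l => w0 a b (J Φ i) l).det.natAbs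

/-- the volume of the hull is bounded by the numbers `Nn` -/
theorem vol_le {κ : Type} [Fintype κ] [Fintype α] [Fintype β] {a : α → Fin k → ℤ}
    {b : β → Fin k → ℤ} {r : ℝ} {J : κ → Fin k → α ⊕ β} {η : κ → Fin k → ℝ}
    (hS : Star (W a b r) κ J η) (hr : 0 < r) :
    (k.factorial : ℝ≥0∞) * volume (convexHull ℝ (Set.range (W a b r))) ≤
      ENNReal.ofReal (∑ j ∈ Finset.range (k + 1), r ^ (k - j) * (Nn a b J j : ℝ)) := by
  refine hS.sumd.trans ?_
  rw [← ENNReal.ofReal_sum_of_nonneg (fun _ _ => abs_nonneg _)]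
  apply ENNReal.ofReal_le_ofReal
  apply le_of_eq
  have h1 : ∀ Φ : κ, |(Matrix.of fun i l => W a b r (J Φ i) l).det|
      = r ^ (k - (left (J Φ)).card) *
        ((Matrix.of fun i l => w0 a b (J Φ i) l).det.natAbs : ℝ) := by
    intro Φ
    rw [det_W, det_cm, abs_mul]
    congr 1
    · rw [abs_of_pos (Finset.prod_pos fun i _ => sc_pos hr _)]
      have h2 : ∀ i, sc r (J Φ i) = if (J Φ i).isLeft = true then 1 else r := by
        intro i
        cases h : J Φ i <;> simp [sc]
      rw [Finset.prod_congr rfl fun i _ => h2 i, Finset.prod_ite]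
      rw [Finset.prod_const_one, one_mul, Finset.prod_const]
      congr 1
      have h3 := Finset.card_filter_add_card_filter_not (s := (Finset.univ : Finset (Fin k)))
        (fun i => (J Φ i).isLeft = true)
      rw [Finset.card_univ, Fintype.card_fin] at h3
      unfold left
      omega
    · rw [Nat.cast_natAbs, Int.cast_abs]
  rw [Finset.sum_congr rfl fun Φ _ => h1 Φ]
  unfold Nn
  push_cast
  simp only [Finset.mul_sum]
  rw [← Finset.sum_fiberwise_of_maps_to (s := (Finset.univ : Finset κ))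
    (t := Finset.range (k + 1)) (g := fun Φ => (left (J Φ)).card)]
  · refine Finset.sum_congr rfl fun j _ => ?_
    refine Finset.sum_congr rfl fun Φ hΦ => ?_
    rw [(Finset.mem_filter.1 hΦ).2]
  · intro Φ _
    rw [Finset.mem_range]
    have := Finset.card_le_univ (left (J Φ))
    rw [Fintype.card_fin] at this
    omega

/-- QSET -/
theorem qset (hX1 : X1) {κ : Type} [Fintype κ] [Fintype α] [Fintype β] {a : α → Fin k → ℤ}
    {b : β → Fin k → ℤ} {r : ℝ} {J : κ → Fin k → α ⊕ β} {η : κ → Fin k → ℝ}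
    (hS : Star (W a b r) κ J η) (hr : 0 < r)
    (V : Finset (Fin k → ℤ)) (hVa : ∀ x, x ∈ V ↔ x ∈ Set.range a)
    {C : Type} [Field C] (lam : (Fin k → ℤ) → C) (hlam : Set.InjOn lam V)
    (F : Fin k → AddMonoidAlgebra C (Fin k → ℤ))
    (hF : ∀ i, F i = ∑ v ∈ V, AddMonoidAlgebra.single v (lam v ^ (i : ℕ)))
    (j : ℕ) (hj : j ≤ k) (B : Set (Fin k → ℝ)) (hBc : Convex ℝ B) (hB0 : B ∈ 𝓝 0)
    (hbB : ∀ y, (fun l => (b y l : ℝ)) ∈ B) :
    ∃ c : ℕ, ∀ n : ℕ, ∃ Q : Finset (Fin k → ℤ),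
      Q.card = Nn a b J j * (simp (k - j) n).card ∧
      (∀ q ∈ Q, (fun l => (q l : ℝ)) ∈ ((n : ℝ) + c) • B) ∧
      LinearIndependent C (fun p : Q × (Fin j → ℕ) =>
        (∏ i, F (Fin.castLE hj i) ^ p.2 i) *
          (AddMonoidAlgebra.single (p.1 : Fin k → ℤ) 1 : AddMonoidAlgebra C (Fin k → ℤ))) := by
  classical
  -- cells of type j
  let κj : Type := {Φ : κ // (left (J Φ)).card = j}
  have hcR : ∀ Φ : κj, ((left (J Φ.1))ᶜ).card = k - j := by
    intro Φ
    rw [Finset.card_compl, Fintype.card_fin, Φ.2]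
  let L : κj → Fin j → Fin k := fun Φ => (left (J Φ.1)).orderEmbOfFin Φ.2
  let R : κj → Fin (k - j) → Fin k := fun Φ => ((left (J Φ.1))ᶜ).orderEmbOfFin (hcR Φ)
  have hLinj : ∀ Φ, Function.Injective (L Φ) := fun Φ => (Finset.orderEmbOfFin _ _).injective
  have hRinj : ∀ Φ, Function.Injective (R Φ) := fun Φ => (Finset.orderEmbOfFin _ _).injective
  have hLmem : ∀ Φ i, L Φ i ∈ left (J Φ.1) := fun Φ i => Finset.orderEmbOfFin_mem _ _ _
  have hRmem : ∀ Φ i, R Φ i ∉ left (J Φ.1) := fun Φ i =>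
    Finset.mem_compl.1 (Finset.orderEmbOfFin_mem _ _ _)
  have hLsurj : ∀ (Φ : κj) i, i ∈ left (J Φ.1) → ∃ l, L Φ l = i := by
    intro Φ i hi
    have : i ∈ Set.range ((left (J Φ.1)).orderEmbOfFin Φ.2) := by
      rw [Finset.range_orderEmbOfFin]
      exact hi
    exact this
  have hLR : ∀ Φ i l, L Φ i ≠ R Φ l := fun Φ i l h => hRmem Φ l (h ▸ hLmem Φ i)
  have hwL : ∀ (Φ : κj) i, ∃ x, J Φ.1 (L Φ i) = Sum.inl x := by
    intro Φ i
    have := hLmem Φ i
    unfold left at this
    rw [Finset.mem_filter] at this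
    exact Sum.isLeft_iff.1 this.2
  have hwR : ∀ (Φ : κj) i, ∃ y, J Φ.1 (R Φ i) = Sum.inr y := by
    intro Φ i
    have := hRmem Φ i
    unfold left at this
    rw [Finset.mem_filter] at this
    rcases h : J Φ.1 (R Φ i) with x | y
    · exact absurd ⟨Finset.mem_univ _, by rw [h]; rfl⟩ this
    · exact ⟨y, rfl⟩
  -- representatives
  have hdet : ∀ Φ : κj, (Matrix.of fun i l => w0 a b (J Φ.1 i) l).det ≠ 0 := by
    intro Φ h
    apply det_cm_ne hS Φ.1
    rw [det_cm, h]
    simp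
  choose S hScard hSrep using fun Φ : κj => hX1 k (fun i => w0 a b (J Φ.1 i)) (hdet Φ)
  choose! θ hθ1 hθ2 using hSrep
  -- the location constant
  obtain ⟨c, hc⟩ : ∃ c : ℕ, 0 < c ∧ ∀ Φ : κj, ∀ u ∈ S Φ, (fun l => (u l : ℝ)) ∈ (c : ℝ) • B := by
    have h1 : ∀ᶠ c : ℕ in atTop, ∀ Φ ∈ (Finset.univ : Finset κj), ∀ u ∈ S Φ,
        (c : ℝ)⁻¹ • (fun l => (u l : ℝ)) ∈ B := by
      rw [Filter.eventually_all_finset]
      intro Φ _
      rw [Filter.eventually_all_finset]
      intro u _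
      have : Tendsto (fun c : ℕ => (c : ℝ)⁻¹ • (fun l => (u l : ℝ))) atTop (𝓝 0) := by
        have h2 : Tendsto (fun c : ℕ => (c : ℝ)⁻¹) atTop (𝓝 0) :=
          tendsto_inv_atTop_nhds_zero_nat
        have := h2.smul_const (fun l => (u l : ℝ))
        rwa [zero_smul] at this
      exact this hB0
    obtain ⟨c, hc1, hc2⟩ := (h1.and (Filter.eventually_gt_atTop 0)).exists
    refine ⟨c, hc2, fun Φ u hu => ?_⟩
    have h3 := hc1 Φ (Finset.mem_univ _) u hu
    rw [Set.mem_smul_set]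
    refine ⟨_, h3, ?_⟩
    rw [smul_smul, mul_inv_cancel₀ (by exact_mod_cast hc2.ne'), one_smul]
  refine ⟨c, fun n => ?_⟩
  -- the finset
  let g : (Σ _ : κj, (Fin k → ℤ) × (Fin (k - j) → ℕ)) → (Fin k → ℤ) :=
    fun z => z.2.1 + ∑ l, z.2.2 l • w0 a b (J z.1.1 (R z.1 l))
  let I : Finset (Σ _ : κj, (Fin k → ℤ) × (Fin (k - j) → ℕ)) :=
    Finset.univ.sigma fun Φ => S Φ ×ˢ simp (k - j) n
  let θ' : (Σ _ : κj, (Fin k → ℤ) × (Fin (k - j) → ℕ)) → Fin k → ℝ :=
    fun z i => θ z.1 z.2.1 i + ∑ l, if R z.1 l = i then (z.2.2 l : ℝ) else 0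
  have hI : ∀ z ∈ I, z.2.1 ∈ S z.1 ∧ z.2.2 ∈ simp (k - j) n := by
    intro z hz
    have := (Finset.mem_sigma.1 hz).2
    rw [Finset.mem_product] at this
    exact this
  have hg : ∀ z ∈ I, (fun l => (g z l : ℝ)) =
      ∑ i, θ' z i • (fun l => (w0 a b (J z.1.1 i) l : ℝ)) := by
    intro z hz
    have h1 := hθ2 z.1 z.2.1 (hI z hz).1
    funext l
    have h2 := congrFun h1 l
    simp only [Finset.sum_apply, Pi.smul_apply, smul_eq_mul] at h2 ⊢
    simp only [g, θ', Pi.add_apply, Finset.sum_apply, Pi.smul_apply, add_mul,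
      Finset.sum_add_distrib]
    push_cast
    rw [h2]
    congr 1
    simp only [Finset.sum_mul, ite_mul, zero_mul]
    rw [Finset.sum_comm]
    refine Finset.sum_congr rfl fun x _ => ?_
    rw [Finset.sum_ite_eq]
    simp
  have hθ'L : ∀ z i, θ' z (L z.1 i) = θ z.1 z.2.1 (L z.1 i) := by
    intro z i
    simp only [θ']
    rw [Finset.sum_eq_zero, add_zero]
    intro l _
    rw [if_neg (fun h => hLR z.1 i l h.symm)]
  have hθ'R : ∀ z i, θ' z (R z.1 i) = θ z.1 z.2.1 (R z.1 i) + z.2.2 i := by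
    intro z i
    simp only [θ']
    rw [Finset.sum_eq_single i]
    · rw [if_pos rfl]
    · intro l _ hl
      rw [if_neg (fun h => hl (hRinj z.1 h))]
    · intro h
      exact absurd (Finset.mem_univ _) h
  have hθ'pos : ∀ z ∈ I, ∀ i, 0 < θ' z i := by
    intro z hz i
    have h1 := (hθ1 z.1 z.2.1 (hI z hz).1 i).1
    simp only [θ']
    have h2 : (0 : ℝ) ≤ ∑ l, if R z.1 l = i then (z.2.2 l : ℝ) else 0 :=
      Finset.sum_nonneg fun l _ => by split_ifs <;> positivity
    linarith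
  have hcell : ∀ z ∈ I, ∀ Ψ : κ, η Ψ ⬝ᵥ (fun l => (g z l : ℝ)) ≤ η z.1.1 ⬝ᵥ (fun l => (g z l : ℝ))
      ∧ (η Ψ ⬝ᵥ (fun l => (g z l : ℝ)) = η z.1.1 ⬝ᵥ (fun l => (g z l : ℝ)) → Ψ = z.1.1) :=
    fun z hz Ψ => eta_le hS hr z.1.1 Ψ (hg z hz) (hθ'pos z hz)
  have hco : ∀ z ∈ I, (fun l => (g z l : ℝ)) ᵥ* (cm a b (J z.1.1))⁻¹ = θ' z := fun z hz =>
    coord (det_cm_ne hS z.1.1) (hg z hz)
  have hinj : Set.InjOn g I := by
    intro z hz z' hz' hgg
    have h1 : z'.1 = z.1 := by
      apply Subtype.ext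
      apply (hcell z hz z'.1.1).2
      apply le_antisymm (hcell z hz z'.1.1).1
      have := (hcell z' hz' z.1.1).1
      rwa [← hgg] at this
    obtain ⟨Φ, u, be⟩ := z
    obtain ⟨Φ', u', be'⟩ := z'
    simp only at h1
    subst h1
    have h2 : θ' ⟨Φ', u, be⟩ = θ' ⟨Φ', u', be'⟩ := by
      rw [← hco _ hz, ← hco _ hz', hgg]
    have h3 : be = be' := by
      funext l
      have h4 := congrFun h2 (R Φ' l)
      have h5 := hθ'R ⟨Φ', u, be⟩ l
      have h6 := hθ'R ⟨Φ', u', be'⟩ l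
      simp only at h5 h6
      rw [h5, h6] at h4
      have h7 := hθ1 Φ' u (hI _ hz).1 (R Φ' l)
      have h8 := hθ1 Φ' u' (hI _ hz').1 (R Φ' l)
      have h9 : ((be l : ℤ) : ℝ) < ((be' l : ℤ) : ℝ) + 1 := by push_cast; linarith [h7.1, h8.2]
      have h10 : ((be' l : ℤ) : ℝ) < ((be l : ℤ) : ℝ) + 1 := by push_cast; linarith [h7.2, h8.1]
      have h11 : (be l : ℤ) < be' l + 1 := by exact_mod_cast h9
      have h12 : (be' l : ℤ) < be l + 1 := by exact_mod_cast h10
      omega
    subst h3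
    have h4 : u = u' := by
      have := hgg
      simp only [g] at this
      exact add_right_cancel this
    subst h4
    rfl
  refine ⟨I.image g, ?_, ?_, ?_⟩
  · rw [Finset.card_image_of_injOn hinj, Finset.card_sigma]
    simp only [Finset.card_product, hScard]
    rw [← Finset.sum_mul]
    congr 1
    unfold Nn
    rw [Finset.sum_subtype (p := fun Φ : κ => (left (J Φ)).card = j)
      (Finset.univ.filter (fun Φ : κ => (left (J Φ)).card = j)) (fun x => by simp)]
  · intro q hq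
    obtain ⟨z, hz, rfl⟩ := Finset.mem_image.1 hq
    rw [add_comm, hBc.add_smul (by positivity) (by positivity)]
    have e1 : (fun l => (g z l : ℝ)) = (fun l => (z.2.1 l : ℝ)) +
        ∑ l, (z.2.2 l : ℝ) • (fun p => (w0 a b (J z.1.1 (R z.1 l)) p : ℝ)) := by
      funext p
      simp [g]
    rw [e1]
    refine Set.add_mem_add (hc.2 z.1 z.2.1 (hI z hz).1) ?_
    have hsum := mem_simp.1 (hI z hz).2
    have hb0 : (0 : Fin k → ℝ) ∈ B := mem_of_mem_nhds hB0
    rcases Nat.eq_zero_or_pos n with hn | hn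
    · subst hn
      have h0 : ∀ l, z.2.2 l = 0 := by
        intro l
        have := Finset.single_le_sum (f := z.2.2) (fun j _ => Nat.zero_le _) (Finset.mem_univ l)
        omega
      simp only [h0, Nat.cast_zero, zero_smul, Finset.sum_const_zero]
      rw [Set.mem_smul_set]
      exact ⟨0, hb0, by simp⟩
    · have hn' : (0 : ℝ) < n := by exact_mod_cast hn
      rw [Set.mem_smul_set]
      refine ⟨∑ l, ((z.2.2 l : ℝ) / n) • (fun p => (w0 a b (J z.1.1 (R z.1 l)) p : ℝ)), ?_, ?_⟩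
      · have hle1 : ∑ l, ((z.2.2 l : ℝ) / n) ≤ 1 := by
          rw [← Finset.sum_div, div_le_one hn']
          exact_mod_cast hsum
        have hmem : ∀ l, (fun p => (w0 a b (J z.1.1 (R z.1 l)) p : ℝ)) ∈ B := by
          intro l
          obtain ⟨y, hy⟩ := hwR z.1 l
          rw [hy]
          exact hbB y
        -- add the point 0
        have h2 := hBc.sum_mem (t := (Finset.univ : Finset (Option (Fin (k - j)))))
          (w := fun o => o.elim (1 - ∑ l, ((z.2.2 l : ℝ) / n)) (fun l => (z.2.2 l : ℝ) / n))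
          (z := fun o => o.elim 0 (fun l => (fun p => (w0 a b (J z.1.1 (R z.1 l)) p : ℝ))))
          (by
            intro o _
            cases o with
            | none => simpa using hle1
            | some l => simp only [Option.elim]; positivity)
          (by rw [Fintype.sum_option]; simp)
          (by
            intro o _
            cases o with
            | none => exact hb0
            | some l => exact hmem l)
        rw [Fintype.sum_option] at h2
        simpa using h2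
      · rw [Finset.smul_sum]
        refine Finset.sum_congr rfl fun l _ => ?_
        rw [smul_smul]
        congr 1
        field_simp
  · -- linear independence
    by_cases hne : (Finset.univ : Finset κj).Nonempty
    · let u : κj → (Fin k → ℤ) →+ ℝ := fun Φ =>
        { toFun := fun q => η Φ.1 ⬝ᵥ (fun l => (q l : ℝ))
          map_zero' := by simp
          map_add' := fun x y => by
            rw [← dotProduct_add]
            congr 1
            funext l
            simp }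
      let co : κj → (Fin k → ℤ) →+ (Fin j → ℝ) := fun Φ =>
        { toFun := fun q i => ((fun l => (q l : ℝ)) ᵥ* (cm a b (J Φ.1))⁻¹) (L Φ i)
          map_zero' := by
            funext i
            have : (fun l => (((0 : Fin k → ℤ)) l : ℝ)) = 0 := by funext l; simp
            rw [this, Matrix.zero_vecMul]
            rfl
          map_add' := fun x y => by
            funext i
            have : (fun l => ((x + y) l : ℝ)) = (fun l => (x l : ℝ)) + (fun l => (y l : ℝ)) := by
              funext l; simp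
            rw [this, Matrix.add_vecMul]
            rfl }
      have hwW : ∀ (Φ : κj) i, (fun l => (w0 a b (J Φ.1 (L Φ i)) l : ℝ))
          = W a b r (J Φ.1 (L Φ i)) := by
        intro Φ i
        obtain ⟨x, hx⟩ := hwL Φ i
        rw [hx]
        rfl
      apply indep_castLE_gen hj V lam hlam F hF (Finset.univ : Finset κj) hne u
        (fun Φ i => w0 a b (J Φ.1 (L Φ i))) co
      · intro G _ v hv
        obtain ⟨x, rfl⟩ := (hVa v).1 hv
        exact hS.feas G.1 (Sum.inl x)
      · intro G _ v hv h1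
        obtain ⟨x, rfl⟩ := (hVa v).1 hv
        obtain ⟨i, hi⟩ := (hS.tight G.1 (Sum.inl x)).1 h1
        have hil : i ∈ left (J G.1) := by
          unfold left
          rw [Finset.mem_filter]
          exact ⟨Finset.mem_univ _, by rw [hi]; rfl⟩
        obtain ⟨l, hl⟩ := hLsurj G i hil
        refine ⟨l, ?_⟩
        simp only
        rw [hl, hi]
        rfl
      · intro G _ i
        obtain ⟨x, hx⟩ := hwL G i
        rw [hx]
        exact (hVa _).2 ⟨x, rfl⟩
      · intro G _ i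
        change η G.1 ⬝ᵥ (fun l => (w0 a b (J G.1 (L G i)) l : ℝ)) = 1
        rw [hwW]
        exact (hS.tight G.1 _).2 ⟨_, rfl⟩
      · intro G _ i
        funext i'
        change ((fun l => (w0 a b (J G.1 (L G i)) l : ℝ)) ᵥ* (cm a b (J G.1))⁻¹) (L G i') = _
        rw [coord (det_cm_ne hS G.1) (θ := Pi.single (L G i) 1) (by
          rw [Finset.sum_eq_single (L G i)]
          · simp
          · intro x _ hx
            rw [Pi.single_eq_of_ne hx, zero_smul]
          · intro h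
            exact absurd (Finset.mem_univ _) h)]
        by_cases h : i' = i
        · subst h
          simp
        · rw [Pi.single_eq_of_ne h, Pi.single_eq_of_ne]
          intro hh
          exact h (hLinj G hh)
      · -- hQ
        have key : ∀ G : κj, ∀ q ∈ I.image g, (∀ G' ∈ (Finset.univ : Finset κj), u G' q ≤ u G q) →
            ∀ i, 0 < co G q i ∧ co G q i ≤ 1 := by
          intro G q hq hmax i
          obtain ⟨z, hz, rfl⟩ := Finset.mem_image.1 hq
          have h1 : G = z.1 := by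
            apply Subtype.ext
            apply (hcell z hz G.1).2
            exact le_antisymm (hcell z hz G.1).1 (hmax z.1 (Finset.mem_univ _))
          subst h1
          have h2 : co z.1 (g z) i = θ z.1 z.2.1 (L z.1 i) := by
            change ((fun l => (g z l : ℝ)) ᵥ* (cm a b (J z.1.1))⁻¹) (L z.1 i) = _
            rw [hco z hz, hθ'L]
          rw [h2]
          exact hθ1 z.1 z.2.1 (hI z hz).1 _
        intro G _ q hq h1 q' hq' h2 i
        have h3 := key G q hq h1 i
        have h4 := key G q' hq' h2 i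
        rw [abs_lt]
        constructor <;> linarith [h3.1, h3.2, h4.1, h4.2]
    · have hempty : I.image g = ∅ := by
        rw [Finset.not_nonempty_iff_eq_empty] at hne
        rw [Finset.image_eq_empty]
        simp only [I]
        rw [hne]
        simp
      have : IsEmpty (↥(I.image g) × (Fin j → ℕ)) := by
        rw [hempty]
        infer_instance
      exact linearIndependent_empty_type

end Pool.Agent.TH385.MR
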